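import Pool.Agent.HP778.Main

/-!
# The numbers `(a π) ^ (β π)` and `a ^ x π ^ y` with exponents in `ℚ̄(π)` or `ℚ̄(π, e)`

The number `π ^ π` is the member `a = β = 1` of the family `(a π) ^ (β π)`, `a > 0` and `β ≠ 0`
algebraic. Part (1): if two members of this family with bases `a₀ π`, `a₁ π` are algebraic, `a₁ ≠ a₀`,
then the `a` for which some member with base `a π` is algebraic all are, up to roots, in
`a₀ (a₁ / a₀) ^ ℚ`. Parts (2)-(4): at most `4 D - 1`, `8 D - 1` or `32 D ^ 2 - 1` multiplicatively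
independent `a` have an algebraic number of the form `a ^ x π ^ y` with exponents which are values of
polynomials or rational functions of degree at most `D` at `π` (or `π` and `e`).
-/

set_option autoImplicit false

namespace Pool.Agent.Results.MP_7fde5c_nt.AlgebraicMultiplesOfPi

open Module Finset
open Pool.Agent.HP778 hiding IsQuot
open Pool.Agent.H301R2.SSE (Lt Lt_mul)

/-- The linear combinations, with algebraic coefficients, of `1` and of logarithms of algebraic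
numbers. -/
noncomputable def LogForms : Submodule (algebraicClosure ℚ ℂ) ℂ :=
  Submodule.span (algebraicClosure ℚ ℂ) ({1} ∪ {z : ℂ | IsAlgebraic ℚ (Complex.exp z)})

/-- The numbers `e ^ z` with `z` in `LogForms`, i.e. the numbers `e ^ γ α_1 ^ β_1 ⋯ α_k ^ β_k` with
algebraic `γ`, `α_i ≠ 0`, `β_i`. -/
def Prods : Set ℂ := {x | ∃ z ∈ LogForms, Complex.exp z = x}

/-- the positive real algebraic numbers -/
def PosAlg : Set ℝ := {a | 0 < a ∧ IsAlgebraic ℚ a}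

/-- `(a π) ^ (β π)` is in `Prods` for SOME algebraic `β ≠ 0` -/
def BadMultiple (a : ℝ) : Prop :=
  ∃ β : ℂ, IsAlgebraic ℚ β ∧ β ≠ 0 ∧ (((a * Real.pi : ℝ) : ℝ) : ℂ) ^ (β * Real.pi) ∈ Prods

/-- `a ^ x π ^ y` is in `Prods` for SOME pair `(x, y)` of the set `E` -/
def Bad (E : Set (ℂ × ℂ)) (a : ℝ) : Prop :=
  ∃ xy ∈ E, (a : ℂ) ^ xy.1 * ((Real.pi : ℝ) : ℂ) ^ xy.2 ∈ Prods

/-- multiplicative independence of positive real numbers -/
def MultIndep {m : ℕ} (a : Fin m → ℝ) : Prop :=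
  LinearIndependent ℚ (fun i => Real.log (a i))

/-- the pairs `(P(π), S(π))` of values of polynomials of degree at most `D` with algebraic
coefficients, `P` nonconstant -/
def polyPairs (D : ℕ) : Set (ℂ × ℂ) :=
  {xy | ∃ P S : Polynomial (algebraicClosure ℚ ℂ), 1 ≤ P.natDegree ∧ P.natDegree ≤ D ∧
    S.natDegree ≤ D ∧ xy = (Polynomial.aeval ((Real.pi : ℝ) : ℂ) P,
      Polynomial.aeval ((Real.pi : ℝ) : ℂ) S)}

/-- the pairs `(P(t) / Q(t), S(t) / Q(t))` with polynomials `P`, `Q`, `S` with algebraic coefficients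
and of degree at most `D` in each of the `r` variables, such that `P(t) / Q(t)` is transcendental -/
def ratPairs {r : ℕ} (t : Fin r → ℂ) (D : ℕ) : Set (ℂ × ℂ) :=
  {xy | Transcendental ℚ xy.1 ∧ ∃ P Q S : MvPolynomial (Fin r) (algebraicClosure ℚ ℂ),
    (∀ i, P.degreeOf i ≤ D) ∧ (∀ i, Q.degreeOf i ≤ D) ∧ (∀ i, S.degreeOf i ≤ D) ∧
    MvPolynomial.aeval t Q ≠ 0 ∧
    xy.1 = MvPolynomial.aeval t P / MvPolynomial.aeval t Q ∧
    xy.2 = MvPolynomial.aeval t S / MvPolynomial.aeval t Q}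

theorem pi_tr : Transcendental ℚ ((Real.pi : ℝ) : ℂ) :=
  ofReal_transcendental Pool.Agent.H340R2.LW.transcendental_pi

theorem ofReal_cpow' {a : ℝ} (ha : 0 < a) (x : ℂ) :
    (a : ℂ) ^ x = Complex.exp (x * ((Real.log a : ℝ) : ℂ)) := by
  rw [Complex.cpow_def_of_ne_zero (by exact_mod_cast ha.ne'), Complex.ofReal_log ha.le, mul_comm]

theorem exp_log_alg' {a : ℝ} (ha : a ∈ PosAlg) :
    IsAlgebraic ℚ (Complex.exp ((Real.log a : ℝ) : ℂ)) := by
  rw [← Complex.ofReal_exp, Real.exp_log ha.1]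
  exact ha.2.algebraMap (A := ℂ)

theorem indep_complex {m : ℕ} {a : Fin m → ℝ} (h : MultIndep a) :
    LinearIndependent ℚ (fun i => ((Real.log (a i) : ℝ) : ℂ)) := by
  let f : ℝ →ₗ[ℚ] ℂ := (Complex.ofRealCLM : ℝ →ₗ[ℝ] ℂ).restrictScalars ℚ
  exact h.map' f (LinearMap.ker_eq_bot.mpr Complex.ofReal_injective)

theorem mem_of_bad {a : ℝ} (ha : 0 < a) {x y : ℂ}
    (h : (a : ℂ) ^ x * ((Real.pi : ℝ) : ℂ) ^ y ∈ Prods) :
    x * ((Real.log a : ℝ) : ℂ) + y * ((Real.log Real.pi : ℝ) : ℂ) ∈ Lt := by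
  obtain ⟨z, hz, hze⟩ := h
  rw [ofReal_cpow' ha, ofReal_cpow' Real.pi_pos, ← Complex.exp_add] at hze
  exact mem_of_exp hz hze.symm

theorem mem_of_multiple {a : ℝ} (ha : 0 < a) (h : BadMultiple a) :
    ((Real.pi : ℝ) : ℂ) * ((Real.log a : ℝ) : ℂ) + Real.pi * ((Real.log Real.pi : ℝ) : ℂ) ∈ Lt := by
  obtain ⟨β, hβ, hβ0, z, hz, hze⟩ := h
  rw [ofReal_cpow' (mul_pos ha Real.pi_pos)] at hze
  have h1 := mem_of_exp hz hze.symm
  have h2 := Lt_mul hβ.inv h1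
  have h3 : ((Real.pi : ℝ) : ℂ) * ((Real.log a : ℝ) : ℂ) +
      Real.pi * ((Real.log Real.pi : ℝ) : ℂ) =
      β⁻¹ * (β * Real.pi * ((Real.log (a * Real.pi) : ℝ) : ℂ)) := by
    rw [Real.log_mul ha.ne' Real.pi_pos.ne']
    push_cast
    field_simp
  rw [h3]
  exact h2

/-- **Main result.** Let `D ≥ 1`.

(1) Let `a₀, a₁, …, a_m` be positive algebraic numbers such that for each of them there is an algebraic
`β ≠ 0` with `(a π) ^ (β π)` in `Prods`. If `a₁ / a₀, …, a_m / a₀` are multiplicatively independent,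
then `m ≤ 1`.

(2) Let `a₁, …, a_m` be multiplicatively independent positive algebraic numbers such that for each of
them some `a ^ P(π) π ^ S(π)` is in `Prods`, `P`, `S` polynomials of degree at most `D` with algebraic
coefficients, `P` nonconstant. Then `m ≤ 4 D - 1`. (3) The same for the numbers `a ^ x π ^ y`,
`x = P(π) / Q(π)` transcendental, `y = S(π) / Q(π)`, polynomials of degree at most `D`: `m ≤ 8 D - 1`.
(4) `x = P(π, e) / Q(π, e)` transcendental, `y = S(π, e) / Q(π, e)`, degrees at most `D` in each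
variable: `m ≤ 32 D ^ 2 - 1`. (5) All nonzero algebraic numbers are in `Prods`. -/
theorem result :
    (∀ (m : ℕ) (a₀ : ℝ) (a : Fin m → ℝ), a₀ ∈ PosAlg → (∀ i, a i ∈ PosAlg) → BadMultiple a₀ →
      (∀ i, BadMultiple (a i)) → MultIndep (fun i => a i / a₀) → m ≤ 1) ∧
    (∀ (D m : ℕ) (a : Fin m → ℝ), 1 ≤ D → (∀ i, a i ∈ PosAlg) → MultIndep a →
      ((∀ i, Bad (polyPairs D) (a i)) → m ≤ 4 * D - 1) ∧
      ((∀ i, Bad (ratPairs ![((Real.pi : ℝ) : ℂ)] D) (a i)) → m ≤ 8 * D - 1) ∧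
      ((∀ i, Bad (ratPairs ![((Real.pi : ℝ) : ℂ), ((Real.exp 1 : ℝ) : ℂ)] D) (a i)) →
        m ≤ 32 * D ^ 2 - 1)) ∧
    (∀ x : ℂ, x ≠ 0 → IsAlgebraic ℚ x → x ∈ Prods) := by
  refine ⟨fun m a₀ a ha₀ ha h0 h hli => ?_, fun D m a hD ha hli => ⟨fun h => ?_, fun h => ?_,
    fun h => ?_⟩, fun x hx0 hx => ?_⟩
  · refine logs_poly' pi_tr pi_mem_Lt le_rfl _ (fun i => exp_log_alg' (a := a i / a₀)
      ⟨div_pos (ha i).1 ha₀.1, (ha i).2.mul ha₀.2.inv⟩) (indep_complex hli) fun i => ?_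
    refine ⟨Polynomial.X, by simp, by simp, ?_⟩
    rw [Polynomial.aeval_X]
    have h1 := Lt.sub_mem (mem_of_multiple (ha i).1 (h i)) (mem_of_multiple ha₀.1 h0)
    have h2 : ((Real.pi : ℝ) : ℂ) * ((Real.log (a i / a₀) : ℝ) : ℂ) =
        (((Real.pi : ℝ) : ℂ) * ((Real.log (a i) : ℝ) : ℂ) +
          Real.pi * ((Real.log Real.pi : ℝ) : ℂ)) -
        (((Real.pi : ℝ) : ℂ) * ((Real.log a₀ : ℝ) : ℂ) +
          Real.pi * ((Real.log Real.pi : ℝ) : ℂ)) := by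
      rw [Real.log_div (ha i).1.ne' ha₀.1.ne']
      push_cast
      ring
    rw [h2]
    exact h1
  · refine logs_polyz' pi_tr pi_mem_Lt ((Real.log Real.pi : ℝ) : ℂ) hD _
      (fun i => exp_log_alg' (ha i)) (indep_complex hli) fun i => ?_
    obtain ⟨x, ⟨P, S, h1, h2, h3, rfl⟩, hx⟩ := h i
    exact ⟨P, S, h1, h2, h3, mem_of_bad (ha i).1 hx⟩
  · have h1 := (logs_ratio' ![((Real.pi : ℝ) : ℂ)] ((Real.log Real.pi : ℝ) : ℂ) hD 0 pi_tr
      pi_mem_Lt _ (fun i => exp_log_alg' (ha i)) (indep_complex hli) fun i => by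
        obtain ⟨xy, ⟨hx, P, Q, S, hP, hQ, hS, hQ0, h1, h2⟩, hxl⟩ := h i
        exact ⟨xy.1, xy.2, ⟨P, Q, S, hP, hQ, hS, hQ0, h1, h2⟩, hx, mem_of_bad (ha i).1 hxl⟩).1
    have e : 2 * (4 * D) ^ 1 - 1 = 8 * D - 1 := by rw [pow_one]; omega
    rwa [e] at h1
  · have h1 := (logs_ratio' ![((Real.pi : ℝ) : ℂ), ((Real.exp 1 : ℝ) : ℂ)]
      ((Real.log Real.pi : ℝ) : ℂ) hD 0 pi_tr
      pi_mem_Lt _ (fun i => exp_log_alg' (ha i)) (indep_complex hli) fun i => by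
        obtain ⟨xy, ⟨hx, P, Q, S, hP, hQ, hS, hQ0, h1, h2⟩, hxl⟩ := h i
        exact ⟨xy.1, xy.2, ⟨P, Q, S, hP, hQ, hS, hQ0, h1, h2⟩, hx, mem_of_bad (ha i).1 hxl⟩).1
    have e : 2 * (4 * D) ^ 2 - 1 = 32 * D ^ 2 - 1 := by
      have : (4 * D) ^ 2 = 16 * D ^ 2 := by ring
      omega
    rwa [e] at h1
  · refine ⟨Complex.log x, ?_, Complex.exp_log hx0⟩
    refine Submodule.subset_span (Or.inr ?_)
    change IsAlgebraic ℚ (Complex.exp (Complex.log x))
    rwa [Complex.exp_log hx0]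

end Pool.Agent.Results.MP_7fde5c_nt.AlgebraicMultiplesOfPi
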